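import Pool.Agent.H71.PX.Targets

/-!
# Row RA of pfc_modules: runs
-/

set_option autoImplicit false

open Pool.Agent.H71.PX

namespace Pool.Agent.H1.PX.RA

theorem pf_RA : T_RA := by
  intro α Q m U Hh Vv n v h I z hz
  have h2 : ∀ k < v, m.L false (n k) z → ∀ a, (m.P a (n (k + 1)) z ↔ m.R a (n k) z) ∧
      (m.L a (n (k + 1)) z ↔ m.L a (n k) z ∧ ¬ m.R a (n k) z) := by
    intro k hk hl
    obtain ⟨y, hy, hs, hlab⟩ := h.run (I.num k hk.le) hz hl
    have hyk := I.usuc k hk y hy hs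
    rw [hyk] at hlab
    exact hlab
  refine ⟨?_, h2⟩
  intro k
  induction k with
  | zero =>
    intro _ a hn
    have u := h.uP (I.num 0 (Nat.zero_le _)) hz
    cases a
    · exact u.2.2.2.2.2.1 I.zr
    · rcases u.2.2.2.2.2.2.1 I.zr with h3 | h3
      · exact absurd h3 (hn 0 le_rfl)
      · exact h3
  | succ k ih =>
    intro hk a hn
    have hk' : k < v := hk
    have h3 := ih hk'.le a (fun j hj => hn j (by omega))
    have h4 := h.L1 (I.num k hk'.le) hz h3
    have h5 := h2 k hk' h4 a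
    have h6 : ¬ m.P a (n (k + 1)) z := hn (k + 1) le_rfl
    exact h5.2.2 ⟨h3, fun h7 => h6 (h5.1.2 h7)⟩

end Pool.Agent.H1.PX.RA
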